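import Mathlib

namespace Pool.Agent.Results.MP_43a2f8_nt.Shape

open ArithmeticFunction Finset

lemma sum_eq (n : ℕ) (hn : Squarefree n) :
    ∑ d ∈ n.divisors, d * d.divisors.card = ∏ p ∈ n.primeFactors, (1 + p * 2) := by
  have hm : (ArithmeticFunction.pmul ArithmeticFunction.id (ArithmeticFunction.sigma 0)).IsMultiplicative :=
    isMultiplicative_id.pmul isMultiplicative_sigma
  have h := hm.prodPrimeFactors_one_add_of_squarefree hn
  simp only [pmul_apply, id_apply, sigma_zero_apply] at h
  rw [← h]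
  refine Finset.prod_congr rfl fun p hp => ?_
  rw [(Nat.prime_of_mem_primeFactors hp).divisors,
    Finset.card_pair (Nat.prime_of_mem_primeFactors hp).one_lt.ne]

lemma card_eq (n : ℕ) (hn : Squarefree n) :
    n.divisors.card = 2 ^ n.primeFactors.card := by
  rw [Nat.card_divisors hn.ne_zero, ← Finset.prod_const]
  refine Finset.prod_congr rfl fun p hp => ?_
  have h1 := (Nat.squarefree_iff_factorization_le_one hn.ne_zero).1 hn p
  have h2 : 0 < n.factorization p :=
    (Nat.prime_of_mem_primeFactors hp).factorization_pos_of_dvd hn.ne_zero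
      (Nat.dvd_of_mem_primeFactors hp)
  omega

lemma not_three (n : ℕ) (hn : Squarefree n) (hk : Even n.primeFactors.card) (h3 : ¬ 3 ∣ n)
    (h : ∑ d ∈ n.properDivisors, d * d.divisors.card = n) : False := by
  have h1 := sum_eq n hn
  rw [← Nat.insert_self_properDivisors hn.ne_zero, Finset.sum_insert (by simp), h,
    card_eq n hn] at h1
  have h2 : ((n : ZMod 3)) * 2 ^ n.primeFactors.card + n
      = ∏ p ∈ n.primeFactors, (1 + (p : ZMod 3) * 2) := by
    exact_mod_cast congrArg (Nat.cast : ℕ → ZMod 3) h1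
  obtain ⟨m, hm⟩ := hk
  have h4 : (2 : ZMod 3) ^ n.primeFactors.card = 1 := by
    rw [hm, ← two_mul, pow_mul]
    have : (2 : ZMod 3) ^ 2 = 1 := by decide
    rw [this, one_pow]
  have hn0 : (n : ZMod 3) ≠ 0 := by
    rwa [Ne, ZMod.natCast_eq_zero_iff]
  have hp0 : ∀ p ∈ n.primeFactors, (p : ZMod 3) ≠ 0 := by
    intro p hp h0
    rw [ZMod.natCast_eq_zero_iff] at h0
    exact h3 (h0.trans (Nat.dvd_of_mem_primeFactors hp))
  have hprod : (n : ZMod 3) = ∏ p ∈ n.primeFactors, (p : ZMod 3) := by
    conv_lhs => rw [← Nat.prod_primeFactors_of_squarefree hn]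
    push_cast
    rfl
  by_cases hall : ∀ p ∈ n.primeFactors, (p : ZMod 3) = 2
  · have : ∏ p ∈ n.primeFactors, (1 + (p : ZMod 3) * 2) = ∏ p ∈ n.primeFactors, (p : ZMod 3) :=
      Finset.prod_congr rfl fun p hp => by rw [hall p hp]; decide
    rw [this, ← hprod, h4] at h2
    revert h2 hn0
    generalize (n : ZMod 3) = x
    revert x
    decide
  · push Not at hall
    obtain ⟨p, hp, hp2⟩ := hall
    have hz : (1 + (p : ZMod 3) * 2) = 0 := by
      have := hp0 p hp
      revert this hp2
      generalize (p : ZMod 3) = x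
      revert x
      decide
    rw [Finset.prod_eq_zero hp hz, h4] at h2
    revert h2 hn0
    generalize (n : ZMod 3) = x
    revert x
    decide

lemma three (n : ℕ) (hn : Squarefree n) (h3 : 3 ∣ n)
    (h : ∑ d ∈ n.properDivisors, d * d.divisors.card = n) : n = 21 := by
  obtain ⟨m, rfl⟩ := h3
  have hm0 : m ≠ 0 := by rintro rfl; simp at hn
  have hm1 : m ≠ 1 := by
    rintro rfl
    revert h
    decide
  have hsub : ({1, m} : Finset ℕ) ⊆ (3 * m).properDivisors := by
    intro x hx
    simp only [Finset.mem_insert, Finset.mem_singleton] at hx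
    rw [Nat.mem_properDivisors]
    rcases hx with rfl | rfl
    · exact ⟨one_dvd _, by omega⟩
    · exact ⟨Dvd.intro_left 3 rfl, by omega⟩
  have hle := Finset.sum_le_sum_of_subset (f := fun d : ℕ => d * d.divisors.card) hsub
  rw [h, Finset.sum_pair hm1.symm] at hle
  simp only [Nat.divisors_one, Finset.card_singleton] at hle
  have hc : m.divisors.card ≤ 2 := by
    by_contra hc
    have : 3 ≤ m.divisors.card := by omega
    nlinarith
  have hp : m.Prime := by
    by_contra hp
    obtain ⟨q, hq, hq2, hqm⟩ := Nat.exists_dvd_of_not_prime2 (by omega : 2 ≤ m) hp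
    have : ({1, q, m} : Finset ℕ) ⊆ m.divisors := by
      intro x hx
      simp only [Finset.mem_insert, Finset.mem_singleton] at hx
      rw [Nat.mem_divisors]
      rcases hx with rfl | rfl | rfl
      · exact ⟨one_dvd _, hm0⟩
      · exact ⟨hq, hm0⟩
      · exact ⟨dvd_rfl, hm0⟩
    have h5 := Finset.card_le_card this
    rw [Finset.card_eq_three.2 ⟨1, q, m, by omega, by omega, by omega, rfl⟩] at h5
    omega
  have hm3 : m ≠ 3 := by
    rintro rfl
    revert h
    decide
  have h1 := sum_eq _ hn
  rw [← Nat.insert_self_properDivisors hn.ne_zero, Finset.sum_insert (by simp), h,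
    card_eq _ hn, Nat.primeFactors_mul (by norm_num) hm0, Nat.prime_three.primeFactors,
    hp.primeFactors, ← Finset.insert_eq, Finset.card_pair hm3.symm,
    Finset.prod_pair hm3.symm] at h1
  omega

lemma gen (n : ℕ) (hn : n ≠ 0) :
    ∑ d ∈ n.divisors, d * d.divisors.card =
      ∏ p ∈ n.primeFactors, ∑ j ∈ Finset.range (n.factorization p + 1), p ^ j * (j + 1) := by
  have hm : ((ArithmeticFunction.pmul ArithmeticFunction.id (ArithmeticFunction.sigma 0)) *
      ArithmeticFunction.zeta).IsMultiplicative :=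
    (isMultiplicative_id.pmul isMultiplicative_sigma).mul isMultiplicative_zeta
  have h := hm.multiplicative_factorization _ hn
  rw [mul_zeta_apply, Finsupp.prod, Nat.support_factorization] at h
  simp only [pmul_apply, id_apply, sigma_zero_apply] at h
  rw [h]
  refine Finset.prod_congr rfl fun p hp => ?_
  have hpp := Nat.prime_of_mem_primeFactors hp
  rw [mul_zeta_apply, Nat.sum_divisors_prime_pow hpp]
  refine Finset.sum_congr rfl fun j _ => ?_
  rw [pmul_apply, id_apply, sigma_zero_apply_prime_pow hpp]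

lemma small (n : ℕ) (h : ∑ d ∈ n.properDivisors, d * d.divisors.card = n) (hn : n ≠ 0)
    (p : ℕ) (hp : p.Prime) (hd : p ∣ n) : (n / p).divisors.card < p := by
  obtain ⟨m, rfl⟩ := hd
  have hm0 : m ≠ 0 := by rintro rfl; simp at hn
  rw [Nat.mul_div_cancel_left _ hp.pos]
  by_cases hm1 : m = 1
  · subst hm1
    simpa using hp.one_lt
  have h2 := hp.two_le
  have hm2 : 2 ≤ m := by omega
  have hsub : ({1, m} : Finset ℕ) ⊆ (p * m).properDivisors := by
    intro x hx
    simp only [Finset.mem_insert, Finset.mem_singleton] at hx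
    rw [Nat.mem_properDivisors]
    rcases hx with rfl | rfl
    · exact ⟨one_dvd _, by nlinarith⟩
    · exact ⟨Dvd.intro_left p rfl, by nlinarith⟩
  have hle := Finset.sum_le_sum_of_subset (f := fun d : ℕ => d * d.divisors.card) hsub
  rw [h, Finset.sum_pair (Ne.symm hm1)] at hle
  simp only [Nat.divisors_one, Finset.card_singleton] at hle
  by_contra hc
  have : p ≤ m.divisors.card := by omega
  nlinarith

lemma prime_of_card (m : ℕ) (hm : 2 ≤ m) (hc : m.divisors.card ≤ 2) : m.Prime := by
  by_contra hp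
  obtain ⟨q, hq, hq2, hqm⟩ := Nat.exists_dvd_of_not_prime2 hm hp
  have hm0 : m ≠ 0 := by omega
  have : ({1, q, m} : Finset ℕ) ⊆ m.divisors := by
    intro x hx
    simp only [Finset.mem_insert, Finset.mem_singleton] at hx
    rw [Nat.mem_divisors]
    rcases hx with rfl | rfl | rfl
    · exact ⟨one_dvd _, hm0⟩
    · exact ⟨hq, hm0⟩
    · exact ⟨dvd_rfl, hm0⟩
  have h5 := Finset.card_le_card this
  rw [Finset.card_eq_three.2 ⟨1, q, m, by omega, by omega, by omega, rfl⟩] at h5
  omega

lemma not_two (n : ℕ) (h : ∑ d ∈ n.properDivisors, d * d.divisors.card = n) (hn : n ≠ 0) :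
    ¬ 2 ∣ n := by
  intro h2
  have h1 := small n h hn 2 Nat.prime_two h2
  obtain ⟨m, rfl⟩ := h2
  rw [Nat.mul_div_cancel_left _ (by norm_num)] at h1
  have hm0 : m ≠ 0 := by omega
  by_cases hm1 : m = 1
  · subst hm1
    revert h
    decide
  · have hp := prime_of_card m (by omega) (by omega)
    rw [hp.divisors, Finset.card_pair hp.one_lt.ne] at h1
    omega

lemma three' (n : ℕ) (h : ∑ d ∈ n.properDivisors, d * d.divisors.card = n) (hn : n ≠ 0)
    (h3 : 3 ∣ n) : n = 21 := by
  have h1 := small n h hn 3 Nat.prime_three h3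
  refine three n ?_ h3 h
  obtain ⟨m, rfl⟩ := h3
  rw [Nat.mul_div_cancel_left _ (by norm_num)] at h1
  have hm0 : m ≠ 0 := by omega
  by_cases hm1 : m = 1
  · subst hm1
    exact Nat.prime_three.prime.squarefree
  · have hp := prime_of_card m (by omega) (by omega)
    have hm3 : 3 ≠ m := by
      rintro rfl
      revert h
      decide
    exact (Nat.squarefree_mul ((Nat.coprime_primes Nat.prime_three hp).2 hm3)).2
      ⟨Nat.prime_three.prime.squarefree, hp.prime.squarefree⟩

lemma sqfree (n : ℕ) (h : ∑ d ∈ n.properDivisors, d * d.divisors.card = n) (hn : n ≠ 0)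
    (h3 : ¬ 3 ∣ n) (h4 : ∀ p : ℕ, p.Prime → ¬ p ^ 4 ∣ n) : Squarefree n := by
  have h2 := not_two n h hn
  have h1 := gen n hn
  rw [← Nat.insert_self_properDivisors hn, Finset.sum_insert (by simp), h,
    Nat.card_divisors hn] at h1
  have he : ∀ p ∈ n.primeFactors, 1 ≤ n.factorization p ∧ n.factorization p ≤ 3 := by
    intro p hp
    have hpp := Nat.prime_of_mem_primeFactors hp
    refine ⟨hpp.factorization_pos_of_dvd hn (Nat.dvd_of_mem_primeFactors hp), ?_⟩
    by_contra hc
    exact h4 p hpp ((hpp.pow_dvd_iff_le_factorization hn).2 (by omega))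
  have hodd : ∀ p ∈ n.primeFactors, p % 2 = 1 := by
    intro p hp
    by_contra hc
    exact h2 ((Nat.dvd_of_mod_eq_zero (by omega)).trans (Nat.dvd_of_mem_primeFactors hp))
  have heven : ∀ p ∈ n.primeFactors, 2 ≤ n.factorization p →
      2 ∣ ∑ j ∈ Finset.range (n.factorization p + 1), p ^ j * (j + 1) := by
    intro p hp h2e
    obtain ⟨t, ht⟩ : ∃ t, p = 2 * t + 1 := ⟨p / 2, by have := hodd p hp; omega⟩
    have h23 : n.factorization p = 2 ∨ n.factorization p = 3 := by have := he p hp; omega
    rcases h23 with h23 | h23 <;> rw [h23] <;> simp only [Finset.sum_range_succ,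
      Finset.sum_range_zero] <;> rw [ht]
    · exact ⟨6 * t ^ 2 + 8 * t + 3, by ring⟩
    · exact ⟨16 * t ^ 3 + 30 * t ^ 2 + 20 * t + 5, by ring⟩
  by_cases hall : ∀ p ∈ n.primeFactors, n.factorization p = 2
  · exfalso
    have hτ : ∏ p ∈ n.primeFactors, (n.factorization p + 1) = 3 ^ n.primeFactors.card := by
      rw [← Finset.prod_const]
      exact Finset.prod_congr rfl fun p hp => by rw [hall p hp]
    rw [hτ] at h1
    have hn1 : n ≠ 1 := by
      rintro rfl
      revert h
      decide
    have hk : 0 < n.primeFactors.card :=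
      Finset.card_pos.2 (Nat.nonempty_primeFactors.2 (by omega))
    have hdv : 2 ^ n.primeFactors.card ∣ n * 3 ^ n.primeFactors.card + n := by
      rw [h1, ← Finset.prod_const]
      exact Finset.prod_dvd_prod_of_dvd _ _ fun p hp => heven p hp (by rw [hall p hp])
    have hz : ((n : ZMod 3)) * 3 ^ n.primeFactors.card + n
        = ∏ p ∈ n.primeFactors, ∑ j ∈ Finset.range (n.factorization p + 1),
          (p : ZMod 3) ^ j * (j + 1) := by
      exact_mod_cast congrArg (Nat.cast : ℕ → ZMod 3) h1
    have h30 : (3 : ZMod 3) = 0 := by decide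
    rw [h30, zero_pow hk.ne', mul_zero, zero_add] at hz
    have hp0 : ∀ p ∈ n.primeFactors, (p : ZMod 3) ≠ 0 := by
      intro p hp h0
      rw [ZMod.natCast_eq_zero_iff] at h0
      exact h3 (h0.trans (Nat.dvd_of_mem_primeFactors hp))
    have hn3 : (n : ZMod 3) = 1 := by
      conv_lhs => rw [← Nat.prod_factorization_pow_eq_self hn, Finsupp.prod,
        Nat.support_factorization]
      push_cast
      refine Finset.prod_eq_one fun p hp => ?_
      rw [hall p hp]
      have := hp0 p hp
      revert this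
      generalize (p : ZMod 3) = x
      revert x
      decide
    rw [hn3] at hz
    have hfac : ∀ p ∈ n.primeFactors, ∑ j ∈ Finset.range (n.factorization p + 1),
        (p : ZMod 3) ^ j * (j + 1) = 2 := by
      intro p hp
      have hne : ∑ j ∈ Finset.range (n.factorization p + 1),
          (p : ZMod 3) ^ j * (j + 1) ≠ 0 := by
        intro h0
        rw [Finset.prod_eq_zero hp h0] at hz
        exact one_ne_zero hz
      have := hp0 p hp
      rw [hall p hp] at hne ⊢
      simp only [Finset.sum_range_succ, Finset.sum_range_zero] at hne ⊢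
      revert this hne
      generalize (p : ZMod 3) = x
      revert x
      decide
    rw [Finset.prod_congr rfl hfac, Finset.prod_const] at hz
    rcases Nat.even_or_odd' n.primeFactors.card with ⟨m, hm | hm⟩
    · rw [hm] at hdv hk
      have h44 : 4 ∣ n * 3 ^ (2 * m) + n :=
        (pow_dvd_pow 2 (by omega : 2 ≤ 2 * m)).trans hdv
      have h9 : 3 ^ (2 * m) % 4 = 1 := by
        rw [pow_mul, Nat.pow_mod]
        simp
      obtain ⟨u, hu⟩ : ∃ u, 3 ^ (2 * m) = 4 * u + 1 := ⟨3 ^ (2 * m) / 4, by omega⟩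
      rw [hu] at h44
      have : n * (4 * u + 1) + n = 4 * (n * u) + 2 * n := by ring
      omega
    · rw [hm, pow_succ, pow_mul] at hz
      have : (2 : ZMod 3) ^ 2 = 1 := by decide
      rw [this, one_pow] at hz
      revert hz
      decide
  · push Not at hall
    obtain ⟨q, hq, hq2⟩ := hall
    have hτ : 2 ∣ ∏ p ∈ n.primeFactors, (n.factorization p + 1) :=
      (show 2 ∣ n.factorization q + 1 by have := he q hq; omega).trans
        (Finset.dvd_prod_of_mem _ hq)
    rw [Nat.squarefree_iff_factorization_le_one hn]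
    intro p
    by_contra hc
    have hp : p ∈ n.primeFactors := by
      rw [← Nat.support_factorization, Finsupp.mem_support_iff]
      omega
    have h5 := (heven p hp (by omega)).trans (Finset.dvd_prod_of_mem
      (fun p => ∑ j ∈ Finset.range (n.factorization p + 1), p ^ j * (j + 1)) hp)
    rw [← h1] at h5
    exact h2 ((Nat.dvd_add_right (Dvd.dvd.mul_left hτ n)).1 h5)

lemma k3base (p q r : ℕ) (hp : p.Prime) (hq : q.Prime) (hr : r.Prime) (h5 : 5 ≤ p)
    (hpq : p < q) (hqr : q < r)
    (h : p * q * r * 9 = (1 + p * 2) * (1 + q * 2) * (1 + r * 2)) : False := by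
  have nd : ∀ s t : ℕ, s.Prime → 1 < t → t < s → s % t ≠ 0 := by
    intro s t hs h1 h2 h0
    rcases (Nat.dvd_prime hs).1 (Nat.dvd_of_mod_eq_zero h0) with h | h <;> omega
  have h' : p * q * r = 4 * (p * q) + 4 * (p * r) + 4 * (q * r) + 2 * (p + q + r) + 1 := by
    nlinarith
  have hp12 : p ≤ 12 := by
    by_contra hc
    have h13 : 13 ≤ p := by omega
    have a1 : 13 * (q * r) ≤ p * q * r := by nlinarith [Nat.zero_le (q * r)]
    have a2 : p * q ≤ q * r := by nlinarith
    have a3 : p * r ≤ q * r := by nlinarith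
    have a4 : 14 * r ≤ q * r := by nlinarith
    omega
  have p2 := nd p 2 hp (by omega) (by omega)
  have p3 := nd p 3 hp (by omega) (by omega)
  have q3 := nd q 3 hq (by omega) (by omega)
  have q5 := nd q 5 hq (by omega) (by omega)
  have q2 := nd q 2 hq (by omega) (by omega)
  have r2 := nd r 2 hr (by omega) (by omega)
  have r3 := nd r 3 hr (by omega) (by omega)
  have r5 := nd r 5 hr (by omega) (by omega)
  have r7 := nd r 7 hr (by omega) (by omega)
  have r11 : r ≤ 11 ∨ r % 11 ≠ 0 := by
    by_cases h11 : r ≤ 11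
    · exact Or.inl h11
    · exact Or.inr (nd r 11 hr (by omega) (by omega))
  have hp' : p = 5 ∨ p = 7 ∨ p = 11 := by
    clear h h' nd p2 p3 q2 q3 q5 r2 r3 r5 r7 r11 hpq
    interval_cases p <;> first | omega | norm_num at hp
  have hq45 : q ≤ 45 := by
    by_contra hc
    have a4 : 46 * r ≤ q * r := by nlinarith
    rcases hp' with rfl | rfl | rfl <;> nlinarith
  rcases hp' with rfl | rfl | rfl <;> interval_cases q <;> omega

lemma five_le (n : ℕ) (hs : Squarefree n) (h2 : ¬ 2 ∣ n) (h3 : ¬ 3 ∣ n)
    (hk : Odd n.primeFactors.card)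
    (h : ∑ d ∈ n.properDivisors, d * d.divisors.card = n) : 5 ≤ n.primeFactors.card := by
  have h1 := sum_eq n hs
  rw [← Nat.insert_self_properDivisors hs.ne_zero, Finset.sum_insert (by simp), h,
    card_eq n hs] at h1
  have hn := Nat.prod_primeFactors_of_squarefree hs
  have h5 : ∀ p ∈ n.primeFactors, p.Prime ∧ 5 ≤ p := by
    intro p hp
    have hpp := Nat.prime_of_mem_primeFactors hp
    have hd := Nat.dvd_of_mem_primeFactors hp
    refine ⟨hpp, ?_⟩
    have := hpp.two_le
    by_contra hc
    have : p = 2 ∨ p = 3 ∨ p = 4 := by omega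
    rcases this with rfl | rfl | rfl
    · exact h2 hd
    · exact h3 hd
    · norm_num at hpp
  by_contra hc
  obtain ⟨m, hm⟩ := hk
  have : n.primeFactors.card = 1 ∨ n.primeFactors.card = 3 := by omega
  rcases this with hk | hk
  · rw [hk] at h1
    obtain ⟨p, hp⟩ := Finset.card_eq_one.1 hk
    have := h5 p (by simp [hp])
    rw [hp, Finset.prod_singleton] at h1 hn
    omega
  · rw [hk] at h1
    obtain ⟨x, y, z, hxy, hxz, hyz, hp⟩ := Finset.card_eq_three.1 hk
    obtain ⟨hx, hx5⟩ := h5 x (by simp [hp])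
    obtain ⟨hy, hy5⟩ := h5 y (by simp [hp])
    obtain ⟨hz, hz5⟩ := h5 z (by simp [hp])
    rw [hp, Finset.prod_insert (by simp [hxy, hxz]), Finset.prod_pair hyz] at h1 hn
    rw [← hn] at h1
    rcases Nat.lt_or_gt_of_ne hxy with a | a <;> rcases Nat.lt_or_gt_of_ne hxz with b | b <;>
      rcases Nat.lt_or_gt_of_ne hyz with c | c
    · exact k3base x y z hx hy hz hx5 a c (by linarith)
    · exact k3base x z y hx hz hy hx5 b c (by linarith)
    · omega
    · exact k3base z x y hz hx hy hz5 b a (by linarith)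
    · exact k3base y x z hy hx hz hy5 a b (by linarith)
    · omega
    · exact k3base y z x hy hz hx hy5 c b (by linarith)
    · exact k3base z y x hz hy hx hz5 c a (by linarith)

theorem result : ∀ n : ℕ, 0 < n → (∑ d ∈ n.properDivisors, d * d.divisors.card) = n → n ≠ 21 →
    Nat.Coprime n 6 ∧ (∀ p : ℕ, p.Prime → p ∣ n → (n / p).divisors.card < p) ∧
      ((∀ p : ℕ, p.Prime → ¬ p ^ 4 ∣ n) →
        Squarefree n ∧ Odd n.primeFactors.card ∧ 5 ≤ n.primeFactors.card) := by
  intro n hn h h21
  have h2 := not_two n h hn.ne'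
  have h3 : ¬ 3 ∣ n := fun h3 => h21 (three' n h hn.ne' h3)
  refine ⟨?_, small n h hn.ne', fun h4 => ?_⟩
  · exact (show Nat.Coprime n (2 * 3) from Nat.Coprime.mul_right
      ((Nat.prime_two.coprime_iff_not_dvd.2 h2).symm)
      ((Nat.prime_three.coprime_iff_not_dvd.2 h3).symm))
  · have hs := sqfree n h hn.ne' h3 h4
    have ho := Nat.not_even_iff_odd.1 fun hk => not_three n hs hk h3 h
    exact ⟨hs, ho, five_le n hs h2 h3 ho h⟩

end Pool.Agent.Results.MP_43a2f8_nt.Shape
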